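import Pool.Agent.Helper56.TOF.Goals
import Mathlib

/-! Packet TOF-HO1 (MP_f32c9c_an): means of `Hol` functions. -/

open MeasureTheory Set Filter Topology Complex

namespace Pool.Agent.Helper12.TOF

open Pool.Agent.Helper56.TOF

theorem ho_le {A κ : ℝ} {L : ℂ → ℂ} (hA : 0 ≤ A) (hκ : 0 < κ) (H : Hol A κ L) {z : ℂ}
    (hz : z.im ≤ 0) : ‖L z‖ ≤ A := by
  refine (H.bound z hz).trans ?_
  have : Real.exp (κ * z.im) ≤ 1 := by
    rw [← Real.exp_zero]
    exact Real.exp_le_exp.mpr (mul_nonpos_of_nonneg_of_nonpos hκ.le hz)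
  nlinarith

theorem ho_path {A κ : ℝ} {L : ℂ → ℂ} (H : Hol A κ L) {z : ℂ} (hz : z.im ≤ 0) :
    Continuous fun t : ℝ => L (z + t) := by
  rw [← continuousOn_univ]
  refine H.cont.comp (f := fun t : ℝ => z + (t : ℂ)) (by fun_prop) ?_
  intro t _
  simpa using hz

theorem ho_cont {A κ h : ℝ} {L : ℂ → ℂ} (hA : 0 ≤ A) (hκ : 0 < κ) (H : Hol A κ L) :
    ContinuousOn (fun z : ℂ => ∫ t in (0 : ℝ)..h, L (z + t)) {z | z.im ≤ 0} := by
  intro z hz
  refine intervalIntegral.continuousWithinAt_of_dominated_interval (bound := fun _ => A) ?_ ?_ ?_ ?_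
  · filter_upwards [self_mem_nhdsWithin] with w hw
    exact (ho_path H hw).aestronglyMeasurable
  · filter_upwards [self_mem_nhdsWithin] with w hw
    refine Eventually.of_forall fun t _ => ?_
    exact ho_le hA hκ H (by simpa using hw)
  · exact intervalIntegrable_const
  · refine Eventually.of_forall fun t _ => ?_
    have h1 : ContinuousWithinAt L {z | z.im ≤ 0} (z + t) := H.cont (z + t) (by simpa using hz)
    refine ContinuousWithinAt.comp (f := fun w : ℂ => w + (t : ℂ)) h1 (by fun_prop) ?_
    intro w hw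
    simpa using hw

theorem ho_diff {A κ h : ℝ} {L : ℂ → ℂ} (hA : 0 ≤ A) (hκ : 0 < κ) (H : Hol A κ L) :
    DifferentiableOn ℂ (fun z : ℂ => ∫ t in (0 : ℝ)..h, L (z + t)) {z | z.im < 0} := by
  intro z hz
  have hz' : z.im < 0 := hz
  have hopen : IsOpen {w : ℂ | w.im < 0} := isOpen_lt Complex.continuous_im continuous_const
  set r : ℝ := -z.im / 3 with hr
  have hr0 : 0 < r := by rw [hr]; linarith
  have him : ∀ w ∈ Metric.ball z r, w.im < - (2 * r) := by
    intro w hw
    have h1 : |w.im - z.im| ≤ ‖w - z‖ := by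
      have := Complex.abs_im_le_norm (w - z)
      simpa using this
    have h2 : ‖w - z‖ < r := by simpa [dist_eq_norm] using hw
    have h3 := (abs_lt.mp (lt_of_le_of_lt h1 h2)).2
    have : z.im = -(3 * r) := by rw [hr]; ring
    linarith
  have hder : ∀ w : ℂ, w.im < 0 → HasDerivAt L (deriv L w) w := by
    intro w hw
    exact ((H.diff w hw).differentiableAt (hopen.mem_nhds hw)).hasDerivAt
  have key := intervalIntegral.hasDerivAt_integral_of_dominated_loc_of_deriv_le
    (μ := volume) (F := fun (w : ℂ) (t : ℝ) => L (w + t)) (F' := fun (w : ℂ) (t : ℝ) => deriv L (w + t))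
    (x₀ := z) (s := Metric.ball z r) (bound := fun _ => A / r) (a := 0) (b := h)
    (Metric.ball_mem_nhds z hr0) ?_ ?_ ?_ ?_ ?_ ?_
  · exact key.2.differentiableAt.differentiableWithinAt
  · filter_upwards [hopen.mem_nhds hz'] with w hw
    exact (ho_path H (le_of_lt hw)).aestronglyMeasurable
  · exact (ho_path H hz'.le).intervalIntegrable _ _
  · have h1 : ContinuousOn (deriv L) {w : ℂ | w.im < 0} := by
      have := (H.diff.analyticOnNhd hopen).deriv
      exact this.continuousOn
    have h2 : Continuous fun t : ℝ => deriv L (z + t) := by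
      rw [← continuousOn_univ]
      refine h1.comp (f := fun t : ℝ => z + (t : ℂ)) (by fun_prop) ?_
      intro t _
      simpa using hz'
    exact h2.aestronglyMeasurable
  · refine Eventually.of_forall fun t _ w hw => ?_
    have hw2 := him w hw
    have hsub : Metric.closedBall (w + t) r ⊆ {u : ℂ | u.im < 0} := by
      intro u hu
      have h1 : |u.im - (w + t).im| ≤ ‖u - (w + t)‖ := by
        have := Complex.abs_im_le_norm (u - (w + t))
        simpa using this
      have h2 : ‖u - (w + t)‖ ≤ r := by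
        have := Metric.mem_closedBall.mp hu
        rwa [dist_eq_norm] at this
      have h3 := (abs_le.mp (h1.trans h2)).2
      have h4 : (w + (t : ℂ)).im = w.im := by simp
      show u.im < 0
      rw [h4] at h3
      linarith
    refine Complex.norm_deriv_le_of_forall_mem_sphere_norm_le hr0 ?_ ?_
    · refine DifferentiableOn.diffContOnCl ?_
      rw [closure_ball _ hr0.ne']
      exact H.diff.mono hsub
    · intro u hu
      exact ho_le hA hκ H (le_of_lt (hsub (Metric.sphere_subset_closedBall hu)))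
  · exact intervalIntegrable_const
  · refine Eventually.of_forall fun t _ w hw => ?_
    have h1 : (w + (t : ℂ)).im < 0 := by
      have := him w hw
      simp only [add_im, ofReal_im, add_zero]
      linarith
    exact (hder _ h1).comp_add_const w t

theorem ho_exp {κ a b : ℝ} (hκ : 0 < κ) :
    ∫ y in a..b, Real.exp (κ * y) = (Real.exp (κ * b) - Real.exp (κ * a)) / κ := by
  rw [intervalIntegral.integral_comp_mul_left (f := Real.exp) hκ.ne', integral_exp]
  simp [div_eq_inv_mul]

theorem ho_vert {A κ : ℝ} {L : ℂ → ℂ} (hA : 0 ≤ A) (hκ : 0 < κ) (H : Hol A κ L) (x a Y : ℝ)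
    (ha : a ≤ 0) (hY : 0 ≤ Y) :
    ‖∫ y in a..(a - Y), L (x + y * I)‖ ≤ A / κ * Real.exp (κ * a) := by
  rw [intervalIntegral.integral_symm, norm_neg]
  have h1 : ‖∫ y in (a - Y)..a, L (x + y * I)‖ ≤ ∫ y in (a - Y)..a, A * Real.exp (κ * y) := by
    refine intervalIntegral.norm_integral_le_of_norm_le (by linarith) ?_ ?_
    · refine Eventually.of_forall fun y hy => ?_
      have := H.bound (x + y * I) (by simpa using hy.2.trans ha)
      simpa using this
    · exact (Continuous.intervalIntegrable (by fun_prop) _ _)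
  refine h1.trans ?_
  rw [intervalIntegral.integral_const_mul, ho_exp hκ]
  have h2 : 0 ≤ Real.exp (κ * (a - Y)) := (Real.exp_pos _).le
  have h3 : A / κ * Real.exp (κ * a) = A * (Real.exp (κ * a) / κ) := by ring
  rw [h3]
  refine mul_le_mul_of_nonneg_left ?_ hA
  gcongr
  linarith

theorem ho_bd {A κ h : ℝ} {L : ℂ → ℂ} (hA : 0 ≤ A) (hκ : 0 < κ) (hh : 0 < h) (H : Hol A κ L)
    {z : ℂ} (hz : z.im ≤ 0) (Y : ℝ) (hY : 0 ≤ Y) :
    ‖∫ t in (0 : ℝ)..h, L (z + t)‖ ≤ 2 * (A / κ * Real.exp (κ * z.im)) +
      A * h * Real.exp (κ * (z.im - Y)) := by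
  have key := Complex.integral_boundary_rect_eq_zero_of_continuousOn_of_differentiableOn L z
    (z + h - Y * I) ?_ ?_
  · simp only [add_re, ofReal_re, sub_re, mul_re, I_re, mul_zero, ofReal_im, I_im, mul_one, sub_self,
      sub_zero, add_im, sub_im, mul_im, add_zero] at key
    have e1 : ∫ t in (0 : ℝ)..h, L (z + t) = ∫ x in z.re..(z.re + h), L (x + z.im * I) := by
      have := intervalIntegral.integral_comp_add_left (fun x : ℝ => L (x + z.im * I)) z.re
        (a := 0) (b := h)
      rw [add_zero] at this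
      rw [← this]
      refine intervalIntegral.integral_congr fun t _ => ?_
      show L (z + t) = L (((z.re + t : ℝ) : ℂ) + z.im * I)
      congr 1
      apply Complex.ext <;> simp
    rw [e1]
    have h2 : ‖∫ x in z.re..(z.re + h), L (x + ((z.im - Y : ℝ) : ℂ) * I)‖ ≤
        A * Real.exp (κ * (z.im - Y)) * |z.re + h - z.re| := by
      refine intervalIntegral.norm_integral_le_of_norm_le_const fun x _ => ?_
      have := H.bound (x + ((z.im - Y : ℝ) : ℂ) * I) (by simp; linarith)
      simpa using this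
    have h3 := ho_vert hA hκ H (z.re + h) z.im Y hz hY
    have h4 := ho_vert hA hκ H z.re z.im Y hz hY
    have h5 : |z.re + h - z.re| = h := by
      rw [add_sub_cancel_left, abs_of_pos hh]
    rw [h5] at h2
    set P := ∫ x in z.re..(z.re + h), L (x + z.im * I) with hP
    set Q := ∫ x in z.re..(z.re + h), L (x + ((z.im - Y : ℝ) : ℂ) * I) with hQ
    set R := ∫ y in z.im..(z.im - Y), L (((z.re + h : ℝ) : ℂ) + y * I) with hR
    set S := ∫ y in z.im..(z.im - Y), L ((z.re : ℂ) + y * I) with hS
    have e2 : P = Q - I • R + I • S := by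
      have : P - Q + I • R - I • S = 0 := by
        convert key using 1
      linear_combination this
    rw [e2]
    calc ‖Q - I • R + I • S‖ ≤ ‖Q‖ + ‖I • R‖ + ‖I • S‖ :=
          (norm_add_le _ _).trans (add_le_add (norm_sub_le _ _) le_rfl)
      _ = ‖Q‖ + ‖R‖ + ‖S‖ := by simp [norm_smul]
      _ ≤ _ := by nlinarith
  · refine H.cont.mono ?_
    intro w hw
    have h1 := hw.2
    simp only [mem_preimage] at h1
    have h2 : (z + h - Y * I).im = z.im - Y := by simp
    rw [h2, uIcc_of_ge (by linarith)] at h1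
    exact h1.2.trans hz
  · refine H.diff.mono ?_
    intro w hw
    have h1 := hw.2
    simp only [mem_preimage] at h1
    have h2 : (z + h - Y * I).im = z.im - Y := by simp
    rw [h2, max_eq_left (by linarith)] at h1
    exact lt_of_lt_of_le h1.2 hz

theorem gHO1 : StmtHO1 := by
  intro A κ h L hA hκ hh H
  refine ⟨(ho_cont hA hκ H).div_const _, (ho_diff hA hκ H).div_const _, ?_⟩
  intro z hz
  have hlim : Tendsto (fun Y : ℝ => 2 * (A / κ * Real.exp (κ * z.im)) +
      A * h * Real.exp (κ * (z.im - Y))) atTop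
      (𝓝 (2 * (A / κ * Real.exp (κ * z.im)) + A * h * 0)) := by
    refine Tendsto.const_add _ (Tendsto.const_mul _ ?_)
    refine Real.tendsto_exp_atBot.comp ?_
    refine Tendsto.const_mul_atBot hκ ?_
    exact tendsto_atBot_add_const_left _ _ tendsto_neg_atTop_atBot
  have h1 : ‖∫ t in (0 : ℝ)..h, L (z + t)‖ ≤ 2 * (A / κ * Real.exp (κ * z.im)) + A * h * 0 := by
    refine ge_of_tendsto hlim ?_
    filter_upwards [eventually_ge_atTop (0 : ℝ)] with Y hY
    exact ho_bd hA hκ hh H hz Y hY
  rw [norm_div, Complex.norm_real, Real.norm_of_nonneg hh.le, div_le_iff₀ hh]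
  refine h1.trans (le_of_eq ?_)
  field_simp
  ring

end Pool.Agent.Helper12.TOF
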